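import Mathlib

/-! Basics for pseudoprimes between `x` and `2x`. -/

namespace Pool.Agent.H490R2

/-- `n` is a (base 2) pseudoprime: a composite `n` with `2 ^ (n - 1) ≡ 1 (mod n)`. -/
def Psp (n : ℕ) : Prop := 1 < n ∧ ¬ n.Prime ∧ 2 ^ (n - 1) ≡ 1 [MOD n]

/-- Every `x` with `a ≤ x < b` has a pseudoprime strictly between `x` and `2x`. -/
def Cov (a b : ℕ) : Prop := ∀ x, a ≤ x → x < b → ∃ n, Psp n ∧ x < n ∧ n < 2 * x

theorem psp_of {n N : ℕ} (hn : 1 < n) (hc : ¬ n.Prime) (hd : n ∣ 2 ^ N - 1) (hN : N ∣ n - 1) :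
    Psp n := by
  refine ⟨hn, hc, ?_⟩
  obtain ⟨k, hk⟩ := hN
  have h1 : 2 ^ N ≡ 1 [MOD n] :=
    ((Nat.modEq_iff_dvd' (Nat.one_le_pow _ _ (by norm_num))).2 hd).symm
  rw [hk, pow_mul]
  simpa using h1.pow k

theorem Cov.trans {a b c : ℕ} (h1 : Cov a b) (h2 : Cov b c) : Cov a c := by
  intro x hx hxc
  by_cases h : x < b
  · exact h1 x hx h
  · exact h2 x (not_lt.1 h) hxc

theorem Cov.single {a n : ℕ} (hn : Psp n) (h : n < 2 * a) : Cov a n := by
  intro x hx hxn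
  exact ⟨n, hn, hxn, by omega⟩

theorem Cov.mono {a b a' b' : ℕ} (h : Cov a b) (ha : a ≤ a') (hb : b' ≤ b) : Cov a' b' :=
  fun x hx hxb => h x (ha.trans hx) (hxb.trans_le hb)

/-- product of `f j` over the bits `j < K` of `S`. -/
def pb (f : ℕ → ℕ) (S : ℕ) : ℕ → ℕ
  | 0 => 1
  | k + 1 => pb f S k * (if S.testBit k then f k else 1)

/-- sum of `f j` over the bits `j < K` of `S`. -/
def sb (f : ℕ → ℕ) (S : ℕ) : ℕ → ℕ
  | 0 => 0
  | k + 1 => sb f S k + (if S.testBit k then f k else 0)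

theorem sb_two_pow (S K : ℕ) : sb (fun j => 2 ^ j) S K = S % 2 ^ K := by
  induction K with
  | zero => simp [sb, Nat.mod_one]
  | succ k ih =>
    rw [sb, ih, Nat.mod_pow_succ, Nat.testBit_eq_decide_div_mod_eq]
    rcases Nat.mod_two_eq_zero_or_one (S / 2 ^ k) with h | h <;> simp [h]

theorem sb_mul (f : ℕ → ℕ) (c S K : ℕ) : sb (fun j => c * f j) S K = c * sb f S K := by
  induction K with
  | zero => simp [sb]
  | succ k ih =>
    rw [sb, sb, ih]
    split_ifs <;> ring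

theorem sb_congr {f g : ℕ → ℕ} {n : ℕ} (S K : ℕ) (h : ∀ j, f j ≡ g j [MOD n]) :
    sb f S K ≡ sb g S K [MOD n] := by
  induction K with
  | zero => rfl
  | succ k ih =>
    rw [sb, sb]
    split_ifs
    · exact ih.add (h k)
    · exact ih.add rfl

theorem pb_congr {f g : ℕ → ℕ} {n : ℕ} (S K : ℕ) (h : ∀ j, f j ≡ g j [MOD n]) :
    pb f S K ≡ pb g S K [MOD n] := by
  induction K with
  | zero => rfl
  | succ k ih =>
    rw [pb, pb]
    split_ifs
    · exact ih.mul (h k)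
    · exact ih.mul rfl

theorem pb_modEq_one {f : ℕ → ℕ} {n : ℕ} (S K : ℕ) (h : ∀ j, f j ≡ 1 [MOD n]) :
    pb f S K ≡ 1 [MOD n] := by
  induction K with
  | zero => rfl
  | succ k ih =>
    rw [pb]
    split_ifs
    · simpa using ih.mul (h k)
    · simpa using ih

theorem pb_dvd (f : ℕ → ℕ) (S K : ℕ) : pb f S K ∣ ∏ j ∈ Finset.range K, f j := by
  induction K with
  | zero => simp [pb]
  | succ k ih =>
    rw [pb, Finset.prod_range_succ]
    split_ifs
    · exact Nat.mul_dvd_mul ih dvd_rfl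
    · exact Nat.mul_dvd_mul ih (one_dvd _)

theorem pb_pos {f : ℕ → ℕ} (S K : ℕ) (h : ∀ j, 0 < f j) : 0 < pb f S K := by
  induction K with
  | zero => simp [pb]
  | succ k ih =>
    rw [pb]
    split_ifs
    · exact Nat.mul_pos ih (h k)
    · simpa using ih

/-- products of numbers `≡ 1 (mod M)` modulo `M * 23`-like moduli. -/
theorem pb_linear {f u : ℕ → ℕ} {M n : ℕ} (S K : ℕ) (hM : n ∣ M * M)
    (h : ∀ j, f j ≡ 1 + M * u j [MOD n]) :
    pb f S K ≡ 1 + M * sb u S K [MOD n] := by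
  induction K with
  | zero => simp [pb, sb]; rfl
  | succ k ih =>
    rw [pb, sb]
    split_ifs
    · refine (ih.mul (h k)).trans ?_
      have : (1 + M * sb u S k) * (1 + M * u k) =
          1 + M * (sb u S k + u k) + (M * M) * (sb u S k * u k) := by ring
      rw [this]
      have h2 : (M * M) * (sb u S k * u k) ≡ 0 [MOD n] :=
        (Nat.modEq_zero_iff_dvd).2 (dvd_mul_of_dvd_left hM _)
      simpa using (Nat.ModEq.refl (1 + M * (sb u S k + u k))).add h2
    · simpa using ih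

/-- `V` is within a factor `(1 ± η) ^ k` of `2 ^ m`. -/
def Near (η : ℝ) (k m : ℕ) (V : ℕ) : Prop :=
  (2 : ℝ) ^ m * (1 - η) ^ k ≤ V ∧ (V : ℝ) ≤ 2 ^ m * (1 + η) ^ k

theorem Near.one (η : ℝ) : Near η 0 0 1 := by simp [Near]

theorem Near.mul {η : ℝ} (h0 : 0 ≤ η) (h1 : η ≤ 1) {k k' m m' V V' : ℕ}
    (h : Near η k m V) (h' : Near η k' m' V') : Near η (k + k') (m + m') (V * V') := by
  obtain ⟨a, b⟩ := h
  obtain ⟨a', b'⟩ := h'
  constructor
  · have e : (2 : ℝ) ^ (m + m') * (1 - η) ^ (k + k') =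
        (2 ^ m * (1 - η) ^ k) * (2 ^ m' * (1 - η) ^ k') := by ring
    rw [e, Nat.cast_mul]
    have : 0 ≤ 1 - η := by linarith
    exact mul_le_mul a a' (by positivity) (by positivity)
  · have e : (2 : ℝ) ^ (m + m') * (1 + η) ^ (k + k') =
        (2 ^ m * (1 + η) ^ k) * (2 ^ m' * (1 + η) ^ k') := by ring
    rw [e, Nat.cast_mul]
    exact mul_le_mul b b' (by positivity) (by positivity)

theorem Near.mono {η : ℝ} (h0 : 0 ≤ η) (h1 : η ≤ 1) {k k' m V : ℕ}
    (h : Near η k m V) (hk : k ≤ k') : Near η k' m V := by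
  obtain ⟨a, b⟩ := h
  refine ⟨le_trans ?_ a, b.trans ?_⟩
  · exact mul_le_mul_of_nonneg_left (pow_le_pow_of_le_one (by linarith) (by linarith) hk)
      (by positivity)
  · exact mul_le_mul_of_nonneg_left (pow_le_pow_right₀ (by linarith) hk) (by positivity)

theorem pb_near {η : ℝ} (h0 : 0 ≤ η) (h1 : η ≤ 1) {f m : ℕ → ℕ} (S K : ℕ)
    (h : ∀ j, Near η 1 (m j) (f j)) : Near η K (sb m S K) (pb f S K) := by
  induction K with
  | zero => simpa [pb, sb] using Near.one η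
  | succ k ih =>
    rw [pb, sb]
    split_ifs
    · exact ih.mul h0 h1 (h k)
    · simpa using ih.mono h0 h1 (Nat.le_succ k)

end Pool.Agent.H490R2
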