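import Pool.Agent.H490R2.Basic

/-! The finite part: every `171 ≤ x < 2 ^ 200000000`. -/

namespace Pool.Agent.H490R2

/-- pseudoprimes `n` with `N ∣ n - 1`, `n ∣ 2 ^ N - 1` and a proper divisor `p`. -/
def listI : List (ℕ × ℕ × ℕ) := [
  (341, 170, 11),
  (645, 644, 3),
  (1105, 24, 5),
  (2047, 66, 23),
  (4033, 36, 37),
  (7957, 36, 73),
  (15841, 90, 7),
  (31621, 102, 103),
  (62745, 1012, 3),
  (123251, 290, 59),
  (241001, 200, 401),
  (481573, 84, 337),
  (950797, 462, 23),
  (1896961, 780, 11),
  (3779185, 688, 5),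
  (7546981, 1020, 13),
  (15082901, 700, 113),
  (30022129, 228, 229),
  (59999011, 1074, 4297),
  (119743537, 484, 89),
  (239194171, 90, 31),
  (477726145, 672, 5),
  (954608761, 180, 31),
  (1906709281, 1140, 31),
  (3811133305, 408, 5),
  (7617527443, 378, 19),
  (15214955869, 756, 19),
  (17157482401, 300, 63901),
  (34062393961, 840, 17),
  (68044403281, 1680, 31),
  (134457848281, 840, 17),
  (265112623441, 420, 31),
  (525129054241, 1680, 11),
  (1042479472441, 840, 11),
  (2072299872721, 840, 13),
  (4137907118521, 840, 11),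
  (8168169310561, 840, 13),
  (16235729275361, 1120, 31),
  (32357192682361, 840, 17),
  (64338043299601, 840, 43),
  (128086196032201, 840, 11),
  (252780454253041, 840, 11),
  (504896601406681, 840, 11),
  (1001156962424641, 840, 11),
  (1996140479179561, 840, 11),
  (3985009015717801, 840, 29),
  (7905330741797161, 840, 17),
  (15655530856323121, 840, 17),
  (31290562451071561, 840, 11),
  (62540249550902761, 840, 11),
  (124941385652784961, 840, 13),
  (249835938936459961, 840, 29),
  (495951555588486481, 840, 11),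
  (990034182397441441, 840, 13),
  (1966815620964012841, 840, 11),
  (3900232414547482441, 840, 29),
  (7692973670931574201, 840, 11),
  (15266895423139813321, 840, 11),
  (30491279448609346081, 840, 11),
  (60676366442171483641, 840, 11),
  (121209610980176079481, 840, 29),
  (241266041683445999641, 840, 17),
  (482173336996311780961, 840, 17),
  (951525413973197824321, 840, 11),
  (1896422833531993658641, 840, 31),
  (3788043022787597157361, 840, 43),
  (7539610391756969902321, 840, 11),
  (14890596128759582428681, 840, 11),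
  (29607761308663939647961, 840, 11),
  (58636324033155130228681, 840, 11),
  (116290755464691999998521, 840, 11),
  (230258760675562133900281, 840, 13),
  (459522103145433945802921, 840, 29),
  (912183391825051999075921, 840, 41),
  (1813626916689919720395721, 840, 11),
  (3626124306266020228773601, 840, 29),
  (7204586301762913870040641, 840, 11),
  (14304519434698320074493961, 840, 11),
  (28370285061931364465840641, 840, 11),
  (55918186959672393875725921, 840, 11),
  (111410311079367645869783281, 840, 11),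
  (221286456462302193726195601, 840, 13),
  (439411952928565399929015241, 840, 17),
  (871748474902645678777001641, 840, 13),
  (1739872312551159999693720961, 840, 17),
  (3463907740288849187128121041, 840, 11),
  (6874441238376771604505530921, 840, 13),
  (13726710237448330303691544721, 840, 31),
  (27364283266732192683978867961, 840, 13),
  (53683510813253065712448123721, 840, 13),
  (107281766244923937620939606881, 840, 13),
  (213425828487586384680386441521, 840, 17),
  (422167248902812057146589217761, 840, 29),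
  (841663587880182680249805193201, 840, 11),
  (1667050770635979446302661193601, 840, 11),
  (3333829609586317448031030668161, 840, 11),
  (6606957794421340473636226874881, 840, 11),
  (13087581992131369372021199083201, 840, 11),
  (26128084788841668990853071807001, 840, 31),
  (52084756491065568050678662858801, 840, 17),
  (103506112729485972921890533417801, 840, 13),
  (206637142766012309137330515061441, 840, 13),
  (411703183305952658777002027315201, 840, 43),
  (822588153691687819805111448032041, 840, 11),
  (1632651207200871217683611185143961, 840, 11),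
  (3238177111604325007783342757672761, 840, 13),
  (6430098575784452214868085062474801, 840, 17),
  (12832488310797608014084330054906681, 840, 11)]

/-- numbers `g ≡ 1 (mod 2 ^ 24 * 105)` dividing `2 ^ 3360 - 1`, with a proper divisor. -/
def listG : List (ℕ × ℕ) := [
  (4767104431115104886249088582942721, 11),
  (9414598932313376736709511951155201, 13),
  (13228466110255258404443661910671361, 71),
  (20693429852511114710676140520898561, 17),
  (41376560165725576301656534815866881, 13),
  (77768259297313478215976620130304001, 29),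
  (134856596253643986630081034699407361, 11),
  (268697381134631819164831452191784961, 17),
  (494241357882593793256178313823518721, 71),
  (883997399979088823582503623154728961, 61),
  (1681781940600001774560183647647825921, 11),
  (3240665293628921879058228053519892481, 11),
  (5393980032086197692587112821466071041, 29),
  (10154953864234346709433535248119889921, 17),
  (19679273118537837716307052159460966401, 31),
  (38070157304159712728953320964242800641, 11),
  (69203743721353927873269845327830056961, 13),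
  (114305022357781618039791398238195548161, 41),
  (220878831481564019070241106394643169281, 13),
  (401583232609808763574887809921832714241, 41),
  (795074974566166287436421685181667082241, 13),
  (1552613098171367073562405448451725721601, 97),
  (3087229054483658816231110442664150958081, 13),
  (6153840988734132803158288412603433615361, 17),
  (12291963927766586481480764274533109596161, 11),
  (24158717666271565657699817770680456314881, 11),
  (48292697057453411087497935165709678018561, 11),
  (95274853413459057460633331245857594408961, 11),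
  (182186780592015056250797081434957723729921, 11),
  (354614738734459829410910598397545991372801, 41),
  (707891533020171915529863528707473822187521, 17),
  (1408977901198530700257577284785304282071041, 13),
  (2817418882268627483247986931196292077977601, 13),
  (5633088049749842131170530512404279680040961, 11),
  (11153396249762909894926793644282142124933121, 29),
  (22216467769453632458802097384004049300357121, 11),
  (42995012009920990238285389180990340946984961, 11),
  (83288947836987504559277307009289304533893121, 11),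
  (162017044485291954724206055637234977289011201, 11),
  (320424372887643901354961100737612605292544001, 11),
  (638292950258969214712425616326850270766039041, 11),
  (1273928674024059600870620658851232702781194241, 11),
  (2506499324025294196857695156145420789727887361, 11),
  (5004368000433876566552694198357420926828544001, 13),
  (9892431837413517581361446416387373973551185921, 13),
  (19582818853365975328854663874420499288665620481, 13),
  (36440974936193560948223508567573511546790215681, 11),
  (70822595098851924902817066203639323541278556161, 11),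
  (138388042376157762452957774111626956810391388161, 11),
  (273933933846321947232455101271828964883310837761, 13),
  (543169062392905991604704954349478134430291722241, 17),
  (1074924621232748044835552807413681135266677391361, 31),
  (2092185736368098735608337628861372740150451240961, 11),
  (4019416752911868594641860165975494536997529190401, 11),
  (8038167630345345735417313220430944325204883537921, 11),
  (15924714962228545120623862179464468775516776693761, 13),
  (31646603000147212738384464533434450499689890447361, 13),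
  (63210114393951120595736503201735233090951881687041, 13),
  (125506729267002989401450770470615030302442080174081, 29),
  (250134959890968781623026746281409330524269775421441, 11),
  (497596472625232048607564561018382721130244907991041, 11),
  (993658027983063271168468119620184005324544115998721, 13),
  (1985897930076128226608490593445690424848530056151041, 11),
  (3946013865059888206892849086855205669624295488225281, 11),
  (7885951594702879328044783632171436738968174188298241, 11),
  (15671815357498966417165139850147006972068116656291841, 13),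
  (31217574533612847798469671882002007033490658631352321, 17),
  (62408599290843794513677174109230727778688426164879361, 11),
  (124679934560904351522319985129978634853411848066170881, 11),
  (248645467368137033680447124274760320004302328635064321, 13),
  (492286381602986274776971888658790063524256371787694081, 13),
  (983001912912979316423016531953173331530567276623298561, 11),
  (1958647088590326554815758338835233382214931525947883521, 29),
  (3845421441111687869376310968366472373477353249340129281, 29),
  (7677207856235633363403763108423066510359726623324897281, 17),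
  (15334594392185125534572076252968466412589933426754191361, 11),
  (30606510601442507377910769720279410276322066466854666241, 11),
  (61126582897481143290112765466913376449464461704434810881, 41),
  (121953024259974346161354328420750270911148043984720363521, 31),
  (243433259821669973690755267633072113887177419220896972801, 29),
  (486032958917769794601156632846608601740607528646412861441, 11),
  (968614032286674493349743952158445837911224104617959751681, 13),
  (1933944872399209996636043580363340716099349465302533406721, 11),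
  (3862291278066998513090774182529135309579594344620695224321, 11),
  (7721048651183103073825952657887666068647563243958021652481, 13),
  (15438209006040389312946488753808256078883160946472418017281, 11),
  (30848842946531398237811263429344535542302664605166804664321, 11),
  (61554035720678011325153637268479430607991501882731475763201, 11),
  (122771858356083576873141711564460895268851169510859902812161, 29),
  (245370379392464375939615414496232497599435463712602178191361, 17),
  (489894754467851109833473103517168179972242633570488177131521, 31),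
  (977343840717108760890629268433752124073033333527419153285121, 13),
  (1954247759023447159245599152964800188356367096775792153067521, 11),
  (3892020841737976631341872656117095445547537643473739469291521, 13),
  (7750184655027463928359025257377576839525608044404432563077121, 11),
  (15494086079386715367670855289144308077638448408293947106918401, 11),
  (30928186315403273921878637602468484743787787319970496553943041, 11),
  (61849311356689253999575141671435354943956522822000458575380481, 11),
  (123503239924428742452450506326443096126843639306448705589084161, 11),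
  (246524164765615426833711349175181608733251287627606608461168641, 11)]

def chk : ℕ → List (ℕ × ℕ × ℕ) → Bool
  | _, [] => true
  | a, (n, N, p) :: t =>
    decide (n < 2 * a) && decide ((n - 1) % N = 0) && decide (2 ^ N % n = 1) &&
      decide (n % p = 0) && decide (1 < p) && decide (p < n) && chk n t

def lastI : ℕ → List (ℕ × ℕ × ℕ) → ℕ
  | a, [] => a
  | _, (n, _, _) :: t => lastI n t

theorem not_prime_of {n p : ℕ} (h : p ∣ n) (h1 : 1 < p) (h2 : p < n) : ¬ n.Prime := by
  intro hn
  rcases (Nat.dvd_prime hn).1 h with h3 | h3 <;> omega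

theorem cov_of_chk : ∀ (L : List (ℕ × ℕ × ℕ)) (a : ℕ), chk a L = true → Cov a (lastI a L)
  | [], a, _ => by
    intro x h1 h2
    simp only [lastI] at h2
    omega
  | (n, N, p) :: t, a, h => by
    simp only [chk, Bool.and_eq_true, decide_eq_true_eq] at h
    obtain ⟨⟨⟨⟨⟨⟨h1, h2⟩, h3⟩, h4⟩, h5⟩, h6⟩, h7⟩ := h
    have hp : Psp n := by
      refine psp_of (N := N) (by omega) (not_prime_of (Nat.dvd_of_mod_eq_zero h4) h5 h6) ?_
        (Nat.dvd_of_mod_eq_zero h2)
      refine (Nat.modEq_iff_dvd' (Nat.one_le_pow _ _ (by norm_num))).1 ?_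
      have : 1 % n = 1 := Nat.mod_eq_of_lt (by omega)
      rw [Nat.ModEq, h3, this]
    exact (Cov.single hp h1).trans (cov_of_chk t n h7)

def N0 : ℕ := 2 ^ 24 * 105

/-- `h ^ 12 - h ^ 9 + h ^ 6 - h ^ 3 + 1` at `h = 2 ^ 2 ^ (s + 3)`. -/
def at' (s : ℕ) : ℕ := ((2 ^ 2 ^ (s + 3)) ^ 15 + 1) / ((2 ^ 2 ^ (s + 3)) ^ 3 + 1)

theorem at_mul (s : ℕ) :
    at' s * ((2 ^ 2 ^ (s + 3)) ^ 3 + 1) = (2 ^ 2 ^ (s + 3)) ^ 15 + 1 := by
  rw [at']
  apply Nat.div_mul_cancel
  have := Odd.nat_add_dvd_pow_add_pow ((2 ^ 2 ^ (s + 3)) ^ 3) 1 (n := 5) (by decide)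
  rw [one_pow] at this
  rwa [show (2 ^ 2 ^ (s + 3)) ^ 15 = ((2 ^ 2 ^ (s + 3)) ^ 3) ^ 5 from by
    rw [← pow_mul ((2 : ℕ) ^ 2 ^ (s + 3))]]

theorem at_dvd (s : ℕ) : at' s ∣ 2 ^ (2 ^ (s + 3) * 105) + 1 := by
  have h1 : at' s ∣ (2 ^ 2 ^ (s + 3)) ^ 15 + 1 := ⟨_, (at_mul s).symm⟩
  have := Odd.nat_add_dvd_pow_add_pow ((2 ^ 2 ^ (s + 3)) ^ 15) 1 (n := 7) (by decide)
  rw [one_pow] at this
  rw [pow_mul, show (2 ^ 2 ^ (s + 3)) ^ 105 = ((2 ^ 2 ^ (s + 3)) ^ 15) ^ 7 from by
    rw [← pow_mul ((2 : ℕ) ^ 2 ^ (s + 3))]]
  exact h1.trans this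

theorem cube_eq (s : ℕ) : (2 ^ 2 ^ (s + 3)) ^ 3 = (2 ^ 24) ^ 2 ^ s := by
  rw [← pow_mul, ← pow_mul, pow_add]
  congr 1
  ring

theorem fift_eq (s : ℕ) : (2 ^ 2 ^ (s + 3)) ^ 15 = ((2 ^ 24) ^ 2 ^ s) ^ 5 := by
  rw [← cube_eq, ← pow_mul ((2 : ℕ) ^ 2 ^ (s + 3))]

theorem at_modEq (s : ℕ) : at' s ≡ 1 [MOD N0] := by
  have h := at_mul s
  rw [cube_eq, fift_eq] at h
  have hs : 2 ^ s ≠ 0 := by positivity
  have h1 : at' s ≡ 1 [MOD 2 ^ 24] := by
    have e : (2 ^ 24) ^ 2 ^ s ≡ 0 [MOD 2 ^ 24] :=
      (Nat.modEq_zero_iff_dvd).2 (dvd_pow_self _ hs)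
    have e1 : at' s * ((2 ^ 24) ^ 2 ^ s + 1) ≡ at' s * (0 + 1) [MOD 2 ^ 24] :=
      Nat.ModEq.mul_left _ (e.add_right 1)
    have e2 : ((2 ^ 24) ^ 2 ^ s) ^ 5 + 1 ≡ 0 ^ 5 + 1 [MOD 2 ^ 24] := (e.pow 5).add_right 1
    rw [h] at e1
    have := e1.symm.trans e2
    simpa using this
  have h2 : at' s ≡ 1 [MOD 105] := by
    have e : (2 ^ 24) ^ 2 ^ s ≡ 1 [MOD 105] := by
      have : 2 ^ 24 ≡ 1 [MOD 105] := by decide
      simpa using this.pow (2 ^ s)
    have e1 : at' s * ((2 ^ 24) ^ 2 ^ s + 1) ≡ at' s * (1 + 1) [MOD 105] :=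
      Nat.ModEq.mul_left _ (e.add_right 1)
    have e2 : ((2 ^ 24) ^ 2 ^ s) ^ 5 + 1 ≡ 1 ^ 5 + 1 [MOD 105] := (e.pow 5).add_right 1
    rw [h] at e1
    have e3 := e1.symm.trans e2
    have e4 : at' s * 2 ≡ 1 * 2 [MOD 105] := by simpa using e3
    exact Nat.ModEq.cancel_right_of_coprime (by decide) e4
  exact (Nat.modEq_and_modEq_iff_modEq_mul (by decide)).1 ⟨h1, h2⟩

theorem at_near (s : ℕ) : Near (1 / 2 ^ 24) 1 (96 * 2 ^ s) (at' s) := by
  have h := at_mul s
  rw [cube_eq, fift_eq] at h
  have hx : (2 : ℝ) ^ (96 * 2 ^ s) = (((2 : ℝ) ^ 24) ^ 2 ^ s) ^ 4 := by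
    rw [← pow_mul, ← pow_mul]; congr 1; ring
  have hR : (at' s : ℝ) * (((2 : ℝ) ^ 24) ^ 2 ^ s + 1) = (((2 : ℝ) ^ 24) ^ 2 ^ s) ^ 5 + 1 := by
    exact_mod_cast h
  have hge : (2 : ℝ) ^ 24 ≤ ((2 : ℝ) ^ 24) ^ 2 ^ s := by
    calc (2 : ℝ) ^ 24 = ((2 : ℝ) ^ 24) ^ 1 := by rw [pow_one]
      _ ≤ ((2 : ℝ) ^ 24) ^ 2 ^ s := pow_le_pow_right₀ (by norm_num) (Nat.one_le_pow _ _ (by norm_num))
  rw [Near, hx, pow_one, pow_one]
  generalize ((2 : ℝ) ^ 24) ^ 2 ^ s = y at *
  have hy : (0 : ℝ) < y := lt_of_lt_of_le (by positivity) hge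
  have hy1 : (1 : ℝ) ≤ y := le_trans (by norm_num) hge
  have hE : (at' s : ℝ) = (y ^ 5 + 1) / (y + 1) := by
    field_simp; linarith
  have hyp : (0 : ℝ) < y + 1 := by linarith
  rw [hE]
  constructor
  · rw [le_div_iff₀ hyp]
    have h4 : (0 : ℝ) < y ^ 4 := by positivity
    have h5 : y * (1 / 2 ^ 24) ≥ 1 := by
      rw [ge_iff_le, mul_one_div, le_div_iff₀ (by positivity)]; linarith
    nlinarith [mul_pos h4 hy, mul_le_mul_of_nonneg_left h5 h4.le]
  · rw [div_le_iff₀ hyp]
    have h4 : (1 : ℝ) ≤ y ^ 4 := one_le_pow₀ hy1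
    have : (0 : ℝ) ≤ y ^ 4 * (1 / 2 ^ 24) * (y + 1) := by positivity
    nlinarith

theorem tel (M k : ℕ) :
    (2 ^ M - 1) * ∏ s ∈ Finset.range k, (2 ^ (2 ^ s * M) + 1) = 2 ^ (2 ^ k * M) - 1 := by
  induction k with
  | zero => simp
  | succ k ih =>
    rw [Finset.prod_range_succ, ← mul_assoc, ih]
    have h1 : 1 ≤ 2 ^ (2 ^ k * M) := Nat.one_le_pow _ _ (by norm_num)
    have h2 : 2 ^ (2 ^ (k + 1) * M) = 2 ^ (2 ^ k * M) * 2 ^ (2 ^ k * M) := by
      rw [← pow_add]; congr 1; ring
    rw [h2]
    generalize 2 ^ (2 ^ k * M) = z at *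
    obtain ⟨w, rfl⟩ : ∃ w, z = w + 1 := ⟨z - 1, by omega⟩
    simp
    have : (w + 1) * (w + 1) = w * (w + 1 + 1) + 1 := by ring
    omega

def BB : ℕ := (2 ^ 3360 - 1) / (at' 0 * at' 1)

theorem BB_mul : BB * (at' 0 * at' 1) = 2 ^ 3360 - 1 := by
  decide +kernel

theorem BB_dvd : BB * ∏ s ∈ Finset.range 21, at' s ∣ 2 ^ N0 - 1 := by
  have h1 : ∏ s ∈ Finset.range 21, at' s = (at' 0 * at' 1) * ∏ s ∈ Finset.range 19, at' (s + 2) := by
    rw [show 21 = 19 + 1 + 1 from rfl, Finset.prod_range_succ', Finset.prod_range_succ']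
    simp only [Nat.zero_add]
    ring
  rw [h1, ← mul_assoc, BB_mul]
  have h2 := tel 3360 19
  have h3 : 2 ^ 19 * 3360 = N0 := by decide
  rw [h3] at h2
  rw [← h2]
  apply Nat.mul_dvd_mul dvd_rfl
  apply Finset.prod_dvd_prod_of_dvd
  intro s _
  have h4 := at_dvd (s + 2)
  have h5 : 2 ^ (s + 2 + 3) * 105 = 2 ^ s * 3360 := by ring
  rwa [h5] at h4

/-- the free factor. -/
def AT (T : ℕ) : ℕ := pb at' T 21

theorem AT_modEq (T : ℕ) : AT T ≡ 1 [MOD N0] := pb_modEq_one T 21 at_modEq

theorem at_pos (s : ℕ) : 0 < at' s := by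
  rcases Nat.eq_zero_or_pos (at' s) with h | h
  · have := at_mul s
    rw [h] at this
    simp at this
  · exact h

theorem AT_pos (T : ℕ) : 0 < AT T := pb_pos T 21 at_pos

theorem AT_near (T : ℕ) (hT : T < 2 ^ 21) : Near (1 / 2 ^ 24) 21 (96 * T) (AT T) := by
  have h := pb_near (η := 1 / 2 ^ 24) (by positivity) (by norm_num) T 21 at_near
  rw [sb_mul, sb_two_pow, Nat.mod_eq_of_lt hT] at h
  exact h

theorem BB_AT (T : ℕ) : BB * AT T ∣ 2 ^ N0 - 1 :=
  (Nat.mul_dvd_mul dvd_rfl (pb_dvd at' T 21)).trans BB_dvd

theorem psp_G {g p T : ℕ} (h1 : BB % g = 0) (h2 : g % N0 = 1) (h3 : g % p = 0) (h4 : 1 < p)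
    (h5 : p < g) : Psp (g * AT T) := by
  have hA := AT_pos T
  have hg : g ≤ g * AT T := Nat.le_mul_of_pos_right _ hA
  refine psp_of (N := N0) (by omega) (not_prime_of (p := p) ?_ h4 (by omega)) ?_ ?_
  · exact dvd_mul_of_dvd_left (Nat.dvd_of_mod_eq_zero h3) _
  · exact (Nat.mul_dvd_mul (Nat.dvd_of_mod_eq_zero h1) dvd_rfl).trans (BB_AT T)
  · have e : g * AT T ≡ 1 * 1 [MOD N0] := by
      refine Nat.ModEq.mul ?_ (AT_modEq T)
      rw [Nat.ModEq, h2]; rfl
    have e' : g * AT T ≡ 1 [MOD N0] := by simpa using e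
    exact (Nat.modEq_iff_dvd' (by omega)).1 e'.symm

def chkG : ℕ → List (ℕ × ℕ) → Bool
  | _, [] => true
  | a, (g, p) :: t =>
    decide (g < 2 * a) && decide (BB % g = 0) && decide (g % N0 = 1) &&
      decide (g % p = 0) && decide (1 < p) && decide (p < g) && chkG g t

def lastG : ℕ → List (ℕ × ℕ) → ℕ
  | a, [] => a
  | _, (n, _) :: t => lastG n t

theorem cov_of_chkG (T : ℕ) : ∀ (L : List (ℕ × ℕ)) (a : ℕ), chkG a L = true →
    Cov (a * AT T) (lastG a L * AT T)
  | [], a, _ => by
    intro x h1 h2
    simp only [lastG] at h2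
    omega
  | (n, p) :: t, a, h => by
    simp only [chkG, Bool.and_eq_true, decide_eq_true_eq] at h
    obtain ⟨⟨⟨⟨⟨⟨h1, h2⟩, h3⟩, h4⟩, h5⟩, h6⟩, h7⟩ := h
    have hp : Psp (n * AT T) := psp_G h2 h3 h4 h5 h6
    refine (Cov.single hp ?_).trans (cov_of_chkG T t n h7)
    have := AT_pos T
    calc n * AT T < 2 * a * AT T := Nat.mul_lt_mul_of_pos_right h1 this
      _ = 2 * (a * AT T) := by ring

def g0 : ℕ := 2754234645693542300561218134343681

theorem chkI : chk 171 listI = true := by decide +kernel
theorem lastI_ge : g0 ≤ lastI 171 listI := by decide +kernel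
theorem chkG' : chkG g0 listG = true := by decide +kernel
theorem lastG_ge : g0 * 2 ^ 96 * 11 ≤ lastG g0 listG * 10 := by decide +kernel

theorem AT_step (T : ℕ) (hT : T + 1 < 2 ^ 21) : g0 * AT (T + 1) ≤ lastG g0 listG * AT T := by
  have h1 := (AT_near (T + 1) hT).2
  have h2 := (AT_near T (by omega)).1
  have h3 : ((g0 : ℕ) : ℝ) * 2 ^ 96 * 11 ≤ (lastG g0 listG : ℕ) * 10 := by
    exact_mod_cast lastG_ge
  have h4 : ((1 : ℝ) + 1 / 2 ^ 24) ^ 21 * 10 ≤ 11 * (1 - 1 / 2 ^ 24) ^ 21 := by norm_num
  have hg : (0 : ℝ) < (g0 : ℕ) := by norm_num [g0]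
  have e : (2 : ℝ) ^ (96 * (T + 1)) = 2 ^ 96 * 2 ^ (96 * T) := by
    rw [← pow_add]; congr 1; ring
  have hp : (0 : ℝ) < 2 ^ (96 * T) := by positivity
  have : ((g0 * AT (T + 1) : ℕ) : ℝ) ≤ ((lastG g0 listG * AT T : ℕ) : ℝ) := by
    rw [Nat.cast_mul, Nat.cast_mul]
    rw [e] at h1
    have hL : (0 : ℝ) ≤ (lastG g0 listG : ℕ) := Nat.cast_nonneg _
    calc ((g0 : ℕ) : ℝ) * (AT (T + 1) : ℕ)
        ≤ (g0 : ℕ) * (2 ^ 96 * 2 ^ (96 * T) * (1 + 1 / 2 ^ 24) ^ 21) :=
          mul_le_mul_of_nonneg_left h1 hg.le
      _ = ((g0 : ℕ) * 2 ^ 96 * 2 ^ (96 * T)) * ((1 + 1 / 2 ^ 24) ^ 21 * 10) / 10 := by ring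
      _ ≤ ((g0 : ℕ) * 2 ^ 96 * 2 ^ (96 * T)) * (11 * (1 - 1 / 2 ^ 24) ^ 21) / 10 := by
          have : (0 : ℝ) ≤ (g0 : ℕ) * 2 ^ 96 * 2 ^ (96 * T) := by positivity
          have := mul_le_mul_of_nonneg_left h4 this
          linarith
      _ = ((g0 : ℕ) * 2 ^ 96 * 11) * (2 ^ (96 * T) * (1 - 1 / 2 ^ 24) ^ 21) / 10 := by ring
      _ ≤ ((lastG g0 listG : ℕ) * 10) * (2 ^ (96 * T) * (1 - 1 / 2 ^ 24) ^ 21) / 10 := by
          have h5 : (0 : ℝ) ≤ 2 ^ (96 * T) * (1 - 1 / 2 ^ 24) ^ 21 := by
            have : (0 : ℝ) ≤ 1 - 1 / 2 ^ 24 := by norm_num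
            positivity
          have := mul_le_mul_of_nonneg_right h3 h5
          linarith
      _ = (lastG g0 listG : ℕ) * (2 ^ (96 * T) * (1 - 1 / 2 ^ 24) ^ 21) := by ring
      _ ≤ (lastG g0 listG : ℕ) * (AT T : ℕ) := mul_le_mul_of_nonneg_left h2 hL
  exact_mod_cast this

theorem cov_AT (T : ℕ) (hT : T < 2 ^ 21) : Cov g0 (g0 * AT T) := by
  induction T with
  | zero =>
    intro x h1 h2
    simp [AT, pb] at h2
    omega
  | succ T ih =>
    refine (ih (by omega)).trans ?_
    exact (cov_of_chkG T listG g0 chkG').mono le_rfl (AT_step T hT)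

theorem big_ge (T : ℕ) (hT : T < 2 ^ 21) : 2 ^ (96 * T) ≤ g0 * AT T := by
  have h2 := (AT_near T hT).1
  have h4 : (1 : ℝ) ≤ (g0 : ℕ) * (1 - 1 / 2 ^ 24) ^ 21 := by
    norm_num [g0]
  have hp : (0 : ℝ) < 2 ^ (96 * T) := by positivity
  have hg : (0 : ℝ) < (g0 : ℕ) := by norm_num [g0]
  have : ((2 ^ (96 * T) : ℕ) : ℝ) ≤ ((g0 * AT T : ℕ) : ℝ) := by
    rw [Nat.cast_mul, Nat.cast_pow, Nat.cast_ofNat]
    calc (2 : ℝ) ^ (96 * T) = 2 ^ (96 * T) * 1 := by rw [mul_one]
      _ ≤ 2 ^ (96 * T) * ((g0 : ℕ) * (1 - 1 / 2 ^ 24) ^ 21) :=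
          mul_le_mul_of_nonneg_left h4 hp.le
      _ = (g0 : ℕ) * (2 ^ (96 * T) * (1 - 1 / 2 ^ 24) ^ 21) := by ring
      _ ≤ (g0 : ℕ) * (AT T : ℕ) := mul_le_mul_of_nonneg_left h2 hg.le
  exact_mod_cast this

theorem cov_small_aux (T m : ℕ) (hT : T < 2 ^ 21) (hm : m ≤ 96 * T) : Cov 171 (2 ^ m) := by
  have h1 : Cov 171 g0 := (cov_of_chk listI 171 chkI).mono le_rfl lastI_ge
  exact h1.trans ((cov_AT T hT).mono le_rfl
    ((Nat.pow_le_pow_right (by norm_num) hm).trans (big_ge T hT)))

/-- the finite part. -/
theorem cov_small (m : ℕ) (hm : m ≤ 200000000) : Cov 171 (2 ^ m) :=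
  cov_small_aux 2097151 m (by norm_num) (hm.trans (by norm_num))

end Pool.Agent.H490R2
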