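import Pool.Agent.H490R2.Digits
import Pool.Agent.H490R2.Finite

/-! The infinite family. -/

namespace Pool.Agent.H490R2

theorem w_add (a j : ℕ) : w (a + j) = w (a % 10 + j) := by
  have : (a + j) % 10 = (a % 10 + j) % 10 := by omega
  rw [w, w, this]

theorem tau_add (a j : ℕ) : tau (a + j) = tau (a % 10 + j) := by
  have : (a + j) % 10 = (a % 10 + j) % 10 := by omega
  rw [tau, tau, this]

theorem digit1 (a' W g0 : ℕ) : ∃ S < 4096, 2 ^ a' * S ≡ W [MOD 23] ∧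
    23 ∣ g0 + sb (fun j => 2 ^ (a' + j) * w (a' + j)) S 12 := by
  set u := 2 ^ (21 * a') with hu
  have h22 : 2 ^ a' * u ≡ 1 [MOD 23] := by
    have e : 2 ^ a' * u = (2 ^ 22) ^ a' := by
      rw [hu, ← pow_add, ← pow_mul]; congr 1; ring
    have : 2 ^ 22 ≡ 1 [MOD 23] := by decide
    rw [e]
    simpa using this.pow a'
  obtain ⟨h1, h2⟩ := tab1_ok (a' % 10) (Nat.mod_lt _ (by norm_num)) ((W * u) % 23)
    (Nat.mod_lt _ (by norm_num)) (((23 - g0 % 23) * u) % 23) (Nat.mod_lt _ (by norm_num))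
  refine ⟨_, look_lt tab1 (a' % 10) ((W * u) % 23) (((23 - g0 % 23) * u) % 23), ?_, ?_⟩
  · have h3 : look tab1 (a' % 10) ((W * u) % 23) (((23 - g0 % 23) * u) % 23) ≡ W * u [MOD 23] := h1
    calc 2 ^ a' * look tab1 (a' % 10) ((W * u) % 23) (((23 - g0 % 23) * u) % 23)
        ≡ 2 ^ a' * (W * u) [MOD 23] := h3.mul_left _
      _ = W * (2 ^ a' * u) := by ring
      _ ≡ W * 1 [MOD 23] := h22.mul_left _
      _ = W := mul_one _
  · generalize look tab1 (a' % 10) ((W * u) % 23) (((23 - g0 % 23) * u) % 23) = S at *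
    have h3 : sb (fun j => 2 ^ j * w (a' % 10 + j)) S 12 ≡ (23 - g0 % 23) * u [MOD 23] := h2
    have h4 : sb (fun j => 2 ^ (a' + j) * w (a' + j)) S 12 =
        2 ^ a' * sb (fun j => 2 ^ j * w (a' % 10 + j)) S 12 := by
      rw [← sb_mul]
      congr 1
      funext j
      rw [w_add, pow_add]
      ring
    rw [h4]
    apply (Nat.modEq_zero_iff_dvd).1
    calc g0 + 2 ^ a' * sb (fun j => 2 ^ j * w (a' % 10 + j)) S 12
        ≡ g0 + 2 ^ a' * ((23 - g0 % 23) * u) [MOD 23] := (h3.mul_left _).add_left _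
      _ = g0 + (23 - g0 % 23) * (2 ^ a' * u) := by ring
      _ ≡ g0 + (23 - g0 % 23) * 1 [MOD 23] := (h22.mul_left _).add_left _
      _ ≡ 0 [MOD 23] := by
          rw [Nat.modEq_zero_iff_dvd]
          omega

theorem digit0 (a' W G : ℕ) (hG : ¬ 23 ∣ G) : ∃ S < 4096, 2 ^ a' * S ≡ W [MOD 11] ∧
    G * pb (fun j => E (a' + j) 0) S 12 ≡ 1 [MOD 23] := by
  obtain ⟨h1, h2⟩ := tab0_ok (a' % 10) (Nat.mod_lt _ (by norm_num)) (W % 11)
    (Nat.mod_lt _ (by norm_num)) (G % 23) (Nat.mod_lt _ (by norm_num))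
    (fun h => hG (Nat.dvd_of_mod_eq_zero h))
  refine ⟨_, look_lt tab0 (a' % 10) (W % 11) (G % 23), ?_, ?_⟩
  · have h10 : 2 ^ a' ≡ 2 ^ (a' % 10) [MOD 11] := by
      have e : 2 ^ a' = 2 ^ (a' % 10) * (2 ^ 10) ^ (a' / 10) := by
        rw [← pow_mul, ← pow_add]; congr 1; omega
      have : 2 ^ 10 ≡ 1 [MOD 11] := by decide
      have h3 := (this.pow (a' / 10)).mul_left (2 ^ (a' % 10))
      rw [← e] at h3
      simpa using h3
    have h3 : 2 ^ (a' % 10) * look tab0 (a' % 10) (W % 11) (G % 23) ≡ W [MOD 11] := h1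
    exact (h10.mul_right _).trans h3
  · generalize look tab0 (a' % 10) (W % 11) (G % 23) = S at *
    have h3 : (G % 23) * pb (fun j => tau (a' % 10 + j) + 1) S 12 ≡ 1 [MOD 23] := h2
    have h4 : pb (fun j => E (a' + j) 0) S 12 ≡
        pb (fun j => tau (a' % 10 + j) + 1) S 12 [MOD 23] := by
      apply pb_congr
      intro j
      have := (tau_spec (a' + j)).add_right 1
      rw [tau_add] at this
      exact this
    exact (Nat.ModEq.mul (Nat.mod_modEq G 23).symm h4).trans h3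

def L : ℕ → ℕ
  | 0 => 0
  | k + 1 => 23 * L k + 1

theorem L_eq (k : ℕ) : 22 * L k + 1 = 23 ^ k := by
  induction k with
  | zero => rfl
  | succ k ih => rw [L, pow_succ, ← ih]; ring

theorem digits (a' : ℕ) {η : ℝ} (h0 : 0 ≤ η) (h1 : η ≤ 1) (hη : 1 / 2 ^ 2 ^ a' ≤ η) :
    ∀ k b W G : ℕ, G ≡ 1 [MOD 23 ^ (b + 1)] → 2 ^ (a' + 12) * L k ≤ W →
    ∃ V T m : ℕ, G * V ≡ 1 [MOD 23 ^ (b + 1 + k)] ∧
      V ∣ ∏ j ∈ Finset.range 12, ∏ i ∈ Finset.range k, E (a' + j) (b + 1 + i) ∧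
      V ≡ 1 [MOD 2 ^ 2 ^ a'] ∧ Near η (12 * k) (22 * 23 ^ b * m) V ∧ W = m + 23 ^ k * T
  | 0, b, W, G, hG, _ => by
    refine ⟨1, W, 0, ?_, ?_, rfl, ?_, ?_⟩
    · simpa using hG
    · simp
    · simpa using Near.one η
    · simp
  | k + 1, b, W, G, hG, hW => by
    obtain ⟨g0, hg0⟩ : ∃ g0, G = 1 + 23 ^ (b + 1) * g0 := by
      have hG1 : 1 ≤ G := by
        rcases Nat.eq_zero_or_pos G with h | h
        · exfalso
          rw [h] at hG
          have h2 : 23 ∣ 23 ^ (b + 1) := dvd_pow_self _ (by omega)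
          have h3 : 0 ≡ 1 [MOD 23] := hG.of_dvd h2
          exact absurd h3 (by decide)
        · exact h
      obtain ⟨g0, hg0⟩ := (Nat.modEq_iff_dvd' hG1).1 hG.symm
      exact ⟨g0, by omega⟩
    obtain ⟨S, hS, hS1, hS2⟩ := digit1 a' W g0
    set V0 := pb (fun j => E (a' + j) (b + 1)) S 12 with hV0
    have hSW : 2 ^ a' * S ≤ 2 ^ (a' + 12) := by
      rw [pow_add]
      exact Nat.mul_le_mul_left _ hS.le
    rw [L, mul_add, mul_one] at hW
    have hSW' : 2 ^ a' * S ≤ W := by omega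
    obtain ⟨W', hW'⟩ := (Nat.modEq_iff_dvd' hSW').1 hS1
    have hW'' : W = 2 ^ a' * S + 23 * W' := by omega
    have hbd : 2 ^ (a' + 12) * L k ≤ W' := by
      have e : 2 ^ (a' + 12) * (23 * L k) = 23 * (2 ^ (a' + 12) * L k) := by ring
      rw [e] at hW
      omega
    have hGV : G * V0 ≡ 1 [MOD 23 ^ (b + 1 + 1)] := by
      have h3 : V0 ≡ 1 + 23 ^ (b + 1) * sb (fun j => 2 ^ (a' + j) * w (a' + j)) S 12
          [MOD 23 ^ (b + 2)] := pb_linear S 12 (sq_dvd b) (fun j => E_lin (a' + j) b)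
      obtain ⟨q, hq⟩ := hS2
      have h4 : G * V0 ≡ (1 + 23 ^ (b + 1) * g0) *
          (1 + 23 ^ (b + 1) * sb (fun j => 2 ^ (a' + j) * w (a' + j)) S 12)
          [MOD 23 ^ (b + 2)] := by
        rw [hg0]; exact h3.mul_left _
      refine h4.trans ?_
      generalize sb (fun j => 2 ^ (a' + j) * w (a' + j)) S 12 = σ at *
      have e : (1 + 23 ^ (b + 1) * g0) * (1 + 23 ^ (b + 1) * σ) =
          1 + 23 ^ (b + 2) * q + (23 ^ (b + 1) * 23 ^ (b + 1)) * (g0 * σ) := by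
        have : (1 + 23 ^ (b + 1) * g0) * (1 + 23 ^ (b + 1) * σ) =
          1 + 23 ^ (b + 1) * (g0 + σ) + (23 ^ (b + 1) * 23 ^ (b + 1)) * (g0 * σ) := by ring
        rw [this, hq]
        ring
      rw [e]
      have h5 : 23 ^ (b + 2) * q ≡ 0 [MOD 23 ^ (b + 2)] :=
        (Nat.modEq_zero_iff_dvd).2 (dvd_mul_right _ _)
      have h6 : (23 ^ (b + 1) * 23 ^ (b + 1)) * (g0 * σ) ≡ 0 [MOD 23 ^ (b + 2)] :=
        (Nat.modEq_zero_iff_dvd).2 (dvd_mul_of_dvd_left (sq_dvd b) _)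
      simpa using ((Nat.ModEq.refl 1).add h5).add h6
    obtain ⟨V', T, m', i1, i2, i3, i4, i5⟩ := digits a' h0 h1 hη k (b + 1) W' (G * V0) hGV hbd
    refine ⟨V0 * V', T, 2 ^ a' * S + 23 * m', ?_, ?_, ?_, ?_, ?_⟩
    · rw [← mul_assoc, show b + 1 + (k + 1) = b + 1 + 1 + k by ring]
      exact i1
    · have h3 : ∏ j ∈ Finset.range 12, ∏ i ∈ Finset.range (k + 1), E (a' + j) (b + 1 + i) =
          (∏ j ∈ Finset.range 12, E (a' + j) (b + 1)) *
          ∏ j ∈ Finset.range 12, ∏ i ∈ Finset.range k, E (a' + j) (b + 1 + 1 + i) := by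
        rw [← Finset.prod_mul_distrib]
        apply Finset.prod_congr rfl
        intro j _
        rw [Finset.prod_range_succ', mul_comm]
        congr 1
        apply Finset.prod_congr rfl
        intro i _
        congr 1
        ring
      rw [h3]
      exact Nat.mul_dvd_mul (pb_dvd _ _ _) i2
    · have h3 : V0 ≡ 1 [MOD 2 ^ 2 ^ a'] := by
        apply pb_modEq_one
        intro j
        apply E_succ_modEq_two
        calc 2 ^ a' ≤ 2 ^ (a' + j) := Nat.pow_le_pow_right (by norm_num) (by omega)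
          _ = 2 ^ (a' + j) * 1 := (mul_one _).symm
          _ ≤ 2 ^ (a' + j) * 23 ^ b := Nat.mul_le_mul_left _ (Nat.one_le_pow _ _ (by norm_num))
      simpa using h3.mul i3
    · have h3 : Near η 12 (22 * 23 ^ b * (2 ^ a' * S)) V0 := by
        have h4 := pb_near (f := fun j => E (a' + j) (b + 1))
          (m := fun j => (22 * 23 ^ b * 2 ^ a') * 2 ^ j) h0 h1 S 12 (by
            intro j
            have h5 := E_near (η := η) (a' + j) b (le_trans ?_ hη)
            · have e : 22 * (2 ^ (a' + j) * 23 ^ b) = (22 * 23 ^ b * 2 ^ a') * 2 ^ j := by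
                rw [pow_add]; ring
              rw [e] at h5
              exact h5
            · apply one_div_le_one_div_of_le (by positivity)
              apply pow_le_pow_right₀ (by norm_num)
              calc 2 ^ a' ≤ 2 ^ (a' + j) := Nat.pow_le_pow_right (by norm_num) (by omega)
                _ = 2 ^ (a' + j) * 1 := (mul_one _).symm
                _ ≤ 2 ^ (a' + j) * 23 ^ b :=
                  Nat.mul_le_mul_left _ (Nat.one_le_pow _ _ (by norm_num)))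
        rw [sb_mul, sb_two_pow, Nat.mod_eq_of_lt (by norm_num; exact hS)] at h4
        rw [show 22 * 23 ^ b * (2 ^ a' * S) = 22 * 23 ^ b * 2 ^ a' * S by ring]
        exact h4
      have h4 := h3.mul h0 h1 i4
      rw [show 12 * (k + 1) = 12 + 12 * k by ring,
        show 22 * 23 ^ b * (2 ^ a' * S + 23 * m') =
          22 * 23 ^ b * (2 ^ a' * S) + 22 * 23 ^ (b + 1) * m' by ring]
      exact h4
    · rw [hW'', i5]
      ring

/-- `2 ^ (2 ^ s * 23 ^ c) + 1`. -/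
def H (c s : ℕ) : ℕ := 2 ^ (2 ^ s * 23 ^ c) + 1

theorem fam (a c M X : ℕ) (ha : 1 ≤ a) (hlev : a + 13 ≤ 2 ^ a) (hQ : 2 ^ (a + 1) ≤ 23 ^ c)
    (hXd : X ∣ H c a) (hX2 : X ≡ 1 [MOD 2 ^ 2 ^ a]) (hX23 : ¬ 23 ∣ X)
    (hM : 2 ^ (a + 13) * 23 ^ c + 23 ^ c ≤ M) (hMu : M < 2 ^ 2 ^ a) :
    ∃ V : ℕ, X * V ∣ 2 ^ (2 ^ 2 ^ a * 23 ^ (c + 1)) - 1 ∧
      X * V ≡ 1 [MOD 2 ^ 2 ^ a * 23 ^ (c + 1)] ∧
      Near (1 / 2 ^ 2 ^ (a + 1)) (1 + 12 * (c + 1) + 2 ^ a) M V := by
  set η : ℝ := 1 / 2 ^ 2 ^ (a + 1) with hη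
  have h0 : 0 ≤ η := by positivity
  have h1 : η ≤ 1 := by
    rw [hη, div_le_one (by positivity)]
    exact one_le_pow₀ (by norm_num)
  have hmono : ∀ {x : ℕ}, 2 ^ (a + 1) ≤ x → 1 / 2 ^ x ≤ η := by
    intro x hx
    rw [hη]
    apply one_div_le_one_div_of_le (by positivity)
    exact pow_le_pow_right₀ (by norm_num) hx
  -- parity
  set β := M % 2 with hβ
  have hβ2 : β < 2 := Nat.mod_lt _ (by norm_num)
  have hQodd : 23 ^ c % 2 = 1 := Nat.odd_iff.1 (Odd.pow (by decide))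
  set P := if β = 1 then H c 0 else 1 with hP
  have hP0 : P ∣ H c 0 := by
    rw [hP]; split_ifs
    · exact dvd_rfl
    · exact one_dvd _
  have hH23 : ¬ 23 ∣ H c 0 := by
    intro hd
    have h2 := (t_modEq 0 c).add_right 1
    have h3 : H c 0 % 23 = (tau 0 + 1) % 23 := h2
    rw [Nat.mod_eq_zero_of_dvd hd] at h3
    exact absurd h3 (by decide)
  have hPnear : Near η 1 (β * 23 ^ c) P := by
    rw [hP]
    split_ifs with hb
    · rw [hb, one_mul]
      have := F_near (η := η) (23 ^ c) (hmono hQ)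
      rw [H, pow_zero, one_mul]
      exact this
    · have : β = 0 := by omega
      rw [this, zero_mul]
      exact (Near.one η).mono h0 h1 (by norm_num)
  have hP2 : P ≡ 1 [MOD 2 ^ 2 ^ a] := by
    rw [hP]
    split_ifs
    · rw [H, pow_zero, one_mul]
      have : 2 ^ a ≤ 23 ^ c := le_trans (Nat.pow_le_pow_right (by norm_num) (by omega)) hQ
      simpa using (two_pow_modEq_zero this).add_right 1
    · rfl
  have hG23 : ¬ 23 ∣ X * P := by
    intro hd
    rcases (Nat.Prime.dvd_mul (by norm_num)).1 hd with h | h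
    · exact hX23 h
    · exact hH23 (h.trans hP0)
  have hβM : β * 23 ^ c ≤ 23 ^ c := by
    have : β ≤ 1 := by omega
    calc β * 23 ^ c ≤ 1 * 23 ^ c := Nat.mul_le_mul_right _ this
      _ = 23 ^ c := one_mul _
  obtain ⟨W0, hW0⟩ : ∃ W0, M = β * 23 ^ c + W0 := ⟨M - β * 23 ^ c, by omega⟩
  have hW0e : W0 % 2 = 0 := by
    have h3 : M % 2 = (β * (23 ^ c % 2) + W0) % 2 := by
      conv_lhs => rw [hW0]
      rw [Nat.add_mod, Nat.mul_mod]
      simp [Nat.add_mod, Nat.mul_mod]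
    rw [hQodd, mul_one] at h3
    omega
  have hW0b : 2 ^ (a + 13) * 23 ^ c ≤ W0 := by omega
  -- lowest digit
  obtain ⟨S0, hS0, hS1, hS2⟩ := digit0 (a + 1) W0 (X * P) hG23
  set V0 := pb (fun j => E (a + 1 + j) 0) S0 12 with hV0
  have hLc := L_eq c
  have hSle : 2 ^ (a + 1) * S0 ≤ 2 ^ (a + 13) := by
    rw [show a + 13 = (a + 1) + 12 by ring, pow_add 2 (a + 1) 12]
    exact Nat.mul_le_mul_left _ hS0.le
  have hWb2 : 2 ^ (a + 13) * (22 * L c) + 2 ^ (a + 13) ≤ W0 := by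
    rw [← hLc] at hW0b
    calc 2 ^ (a + 13) * (22 * L c) + 2 ^ (a + 13) = 2 ^ (a + 13) * (22 * L c + 1) := by ring
      _ ≤ W0 := hW0b
  have hSW : 2 ^ (a + 1) * S0 ≤ W0 := by omega
  obtain ⟨W1, hW1⟩ : ∃ W1, W0 = 2 ^ (a + 1) * S0 + 22 * W1 := by
    obtain ⟨q, hq⟩ := (Nat.modEq_iff_dvd' hSW).1 hS1
    have he : 2 ^ (a + 1) * S0 = 2 * (2 ^ a * S0) := by ring
    have h2q : q % 2 = 0 := by omega
    exact ⟨q / 2, by omega⟩
  have hW1b : 2 ^ (a + 1 + 12) * L c ≤ W1 := by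
    have e : 2 ^ (a + 13) * (22 * L c) = 22 * (2 ^ (a + 1 + 12) * L c) := by
      rw [show a + 1 + 12 = a + 13 by ring]; ring
    rw [e] at hWb2
    omega
  -- the other digits
  obtain ⟨V1, T, m, i1, i2, i3, i4, i5⟩ := digits (a + 1) h0 h1 le_rfl c 0 W1 (X * P * V0)
    (by simpa using hS2) hW1b
  set Z := pb (fun s => E s (c + 1)) T (2 ^ a) with hZ
  have hMsum : M = β * 23 ^ c + (2 ^ (a + 1) * S0 + (22 * m + 22 * 23 ^ c * T)) := by
    rw [hW0, hW1, i5]; ring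
  have hT : T < 2 ^ 2 ^ a := by
    have : T ≤ 22 * 23 ^ c * T := Nat.le_mul_of_pos_left _ (by positivity)
    omega
  have hZnear : Near η (2 ^ a) (22 * 23 ^ c * T) Z := by
    have h4 := pb_near (f := fun s => E s (c + 1)) (m := fun s => (22 * 23 ^ c) * 2 ^ s) h0 h1 T
      (2 ^ a) (by
        intro s
        have h5 := E_near (η := η) s c (hmono (hQ.trans (Nat.le_mul_of_pos_left _ (by positivity))))
        rw [show 22 * (2 ^ s * 23 ^ c) = (22 * 23 ^ c) * 2 ^ s by ring] at h5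
        exact h5)
    rw [sb_mul, sb_two_pow, Nat.mod_eq_of_lt hT] at h4
    exact h4
  have hV0near : Near η 12 (2 ^ (a + 1) * S0) V0 := by
    have h4 := pb_near (f := fun j => E (a + 1 + j) 0) (m := fun j => 2 ^ (a + 1) * 2 ^ j) h0 h1 S0
      12 (by
        intro j
        have h5 := F_near (η := η) (2 ^ (a + 1 + j))
          (hmono (Nat.pow_le_pow_right (by norm_num) (by omega)))
        rw [E, ← pow_add]
        exact h5)
    rw [sb_mul, sb_two_pow, Nat.mod_eq_of_lt (by norm_num; exact hS0)] at h4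
    exact h4
  refine ⟨P * (V0 * (V1 * Z)), ?_, ?_, ?_⟩
  · -- divisibility
    have hD : ∏ s ∈ Finset.range (2 ^ a), H (c + 1) s ∣ 2 ^ (2 ^ 2 ^ a * 23 ^ (c + 1)) - 1 :=
      ⟨_, ((mul_comm _ _).trans (tel (23 ^ (c + 1)) (2 ^ a))).symm⟩
    have hsplit : ∏ s ∈ Finset.range (2 ^ a), H (c + 1) s =
        (∏ s ∈ Finset.range (2 ^ a), H c s) * ∏ s ∈ Finset.range (2 ^ a), E s (c + 1) := by
      rw [← Finset.prod_mul_distrib]
      apply Finset.prod_congr rfl
      intro s _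
      rw [H, H, mul_comm (2 ^ (2 ^ s * 23 ^ c) + 1) (E s (c + 1)), E_mul]
    have hVV : V0 * V1 ∣ ∏ j ∈ Finset.range 12, H c (a + 1 + j) := by
      have h3 : ∏ j ∈ Finset.range 12, H c (a + 1 + j) =
          (∏ j ∈ Finset.range 12, E (a + 1 + j) 0) *
          ∏ j ∈ Finset.range 12, ∏ i ∈ Finset.range c, E (a + 1 + j) (0 + 1 + i) := by
        rw [← Finset.prod_mul_distrib]
        apply Finset.prod_congr rfl
        intro j _
        rw [H, ← prod_E, Finset.prod_range_succ', mul_comm]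
        congr 1
        apply Finset.prod_congr rfl
        intro i _
        congr 1
        ring
      rw [h3]
      exact Nat.mul_dvd_mul (pb_dvd _ _ _) i2
    have hbig : H c a * (H c 0 * ∏ j ∈ Finset.range 12, H c (a + 1 + j)) ∣
        ∏ s ∈ Finset.range (2 ^ a), H c s := by
      have h3 : ∏ j ∈ Finset.range 12, H c (a + 1 + j) =
          ∏ s ∈ Finset.Ico (a + 1) (a + 13), H c s := by
        rw [Finset.prod_Ico_eq_prod_range, show a + 13 - (a + 1) = 12 by omega]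
      rw [h3]
      have h4 : H c a * (H c 0 * ∏ s ∈ Finset.Ico (a + 1) (a + 13), H c s) =
          ∏ s ∈ insert a (insert 0 (Finset.Ico (a + 1) (a + 13))), H c s := by
        rw [Finset.prod_insert, Finset.prod_insert]
        · simp
        · simp only [Finset.mem_insert, Finset.mem_Ico]
          omega
      rw [h4]
      apply Finset.prod_dvd_prod_of_subset
      intro s hs
      simp only [Finset.mem_insert, Finset.mem_Ico, Finset.mem_range] at hs ⊢
      omega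
    have hZd : Z ∣ ∏ s ∈ Finset.range (2 ^ a), E s (c + 1) := pb_dvd _ _ _
    have e : X * (P * (V0 * (V1 * Z))) = (X * (P * (V0 * V1))) * Z := by ring
    rw [e]
    refine dvd_trans ?_ hD
    rw [hsplit]
    refine Nat.mul_dvd_mul (dvd_trans ?_ hbig) hZd
    exact Nat.mul_dvd_mul hXd (Nat.mul_dvd_mul hP0 hVV)
  · -- congruences
    have hcop : Nat.Coprime (2 ^ 2 ^ a) (23 ^ (c + 1)) := Nat.Coprime.pow _ _ (by norm_num)
    refine (Nat.modEq_and_modEq_iff_modEq_mul hcop).1 ⟨?_, ?_⟩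
    · have hV02 : V0 ≡ 1 [MOD 2 ^ 2 ^ a] := by
        apply pb_modEq_one
        intro j
        exact E_zero_modEq_two (Nat.pow_le_pow_right (by norm_num) (by omega))
      have hV12 : V1 ≡ 1 [MOD 2 ^ 2 ^ a] :=
        i3.of_dvd (pow_dvd_pow 2 (Nat.pow_le_pow_right (by norm_num) (by omega)))
      have hZ2 : Z ≡ 1 [MOD 2 ^ 2 ^ a] := by
        apply pb_modEq_one
        intro s
        apply E_succ_modEq_two
        have : 2 ^ a ≤ 23 ^ c := le_trans (Nat.pow_le_pow_right (by norm_num) (by omega)) hQ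
        exact this.trans (Nat.le_mul_of_pos_left _ (by positivity))
      simpa using hX2.mul (hP2.mul (hV02.mul (hV12.mul hZ2)))
    · have hZ23 : Z ≡ 1 [MOD 23 ^ (c + 1)] := by
        apply pb_modEq_one
        intro s
        have h3 := (E_lin s c).of_dvd (pow_dvd_pow 23 (Nat.le_succ (c + 1)))
        refine h3.trans ?_
        have h4 : 23 ^ (c + 1) * (2 ^ s * w s) ≡ 0 [MOD 23 ^ (c + 1)] :=
          (Nat.modEq_zero_iff_dvd).2 (dvd_mul_right _ _)
        simpa using (Nat.ModEq.refl 1).add h4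
      have e : X * (P * (V0 * (V1 * Z))) = (X * P * V0 * V1) * Z := by ring
      rw [e]
      have i1' : X * P * V0 * V1 ≡ 1 [MOD 23 ^ (c + 1)] := by
        rw [show c + 1 = 0 + 1 + c by ring]; exact i1
      simpa using i1'.mul hZ23
  · have h4 := hPnear.mul h0 h1 (hV0near.mul h0 h1 (i4.mul h0 h1 hZnear))
    have e1 : 1 + (12 + (12 * c + 2 ^ a)) = 1 + 12 * (c + 1) + 2 ^ a := by ring
    have e2 : β * 23 ^ c + (2 ^ (a + 1) * S0 + (22 * 23 ^ 0 * m + 22 * 23 ^ c * T)) = M := by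
      rw [pow_zero, mul_one]; exact hMsum.symm
    rw [e1, e2] at h4
    exact h4

/-- numerical consequence of `Near`. -/
theorem near_bounds {A k M V : ℕ} (hk : 4 * k ≤ 2 ^ A) (h : Near (1 / 2 ^ (2 * A)) k M V) :
    (2 : ℝ) ^ M * (1 - 1 / (4 * 2 ^ A)) ≤ V ∧ (V : ℝ) ≤ 2 ^ M * (1 + 1 / (2 * 2 ^ A)) := by
  obtain ⟨h1, h2⟩ := h
  have hy : (1 : ℝ) ≤ 2 ^ A := one_le_pow₀ (by norm_num)
  have hkR : 4 * (k : ℝ) ≤ 2 ^ A := by exact_mod_cast hk
  have hsq : (2 : ℝ) ^ (2 * A) = 2 ^ A * 2 ^ A := by rw [← pow_add]; congr 1; ring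
  rw [hsq] at h1 h2
  set y : ℝ := 2 ^ A with hyd
  have hy0 : 0 < y := by linarith
  set η : ℝ := 1 / (y * y) with hη
  have hη0 : 0 < η := by positivity
  have hη1 : η ≤ 1 := by
    rw [hη, div_le_one (by positivity)]
    nlinarith
  have hkη : k * η ≤ 1 / (4 * y) := by
    rw [hη, mul_one_div, div_le_div_iff₀ (by positivity) (by positivity)]
    nlinarith
  have hq : 1 / (4 * y) ≤ 1 / 4 := by
    apply one_div_le_one_div_of_le (by norm_num); linarith
  have hb1 : 1 - 1 / (4 * y) ≤ (1 - η) ^ k := by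
    have := one_add_mul_le_pow (a := -η) (by linarith) k
    have e : 1 + (k : ℝ) * -η = 1 - k * η := by ring
    rw [e] at this
    have e2 : 1 + -η = 1 - η := by ring
    rw [e2] at this
    linarith
  have hb2 : (1 + η) ^ k ≤ 1 + 1 / (2 * y) := by
    have h3 : (1 + η) ^ k * (1 - η) ^ k ≤ 1 := by
      rw [← mul_pow]
      apply pow_le_one₀
      · nlinarith
      · nlinarith
    have h4 : (1 + η) ^ k * (1 - 1 / (4 * y)) ≤ 1 :=
      le_trans (mul_le_mul_of_nonneg_left hb1 (by positivity)) h3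
    have h5 : 0 < 1 - 1 / (4 * y) := by linarith
    have h6 : 1 ≤ (1 + 1 / (2 * y)) * (1 - 1 / (4 * y)) := by
      have : (1 + 1 / (2 * y)) * (1 - 1 / (4 * y)) = 1 + (2 * y - 1) / (8 * y ^ 2) := by
        field_simp; ring
      rw [this]
      have : 0 ≤ (2 * y - 1) / (8 * y ^ 2) := div_nonneg (by linarith) (by positivity)
      linarith
    exact le_of_mul_le_mul_right (h4.trans h6) h5
  have hp : (0 : ℝ) < 2 ^ M := by positivity
  exact ⟨(mul_le_mul_of_nonneg_left hb1 hp.le).trans h1,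
    h2.trans (mul_le_mul_of_nonneg_left hb2 hp.le)⟩

theorem psp_fam {a c X V : ℕ} (hX : 1 < X) (hV : 1 < V)
    (h1 : X * V ∣ 2 ^ (2 ^ 2 ^ a * 23 ^ (c + 1)) - 1)
    (h2 : X * V ≡ 1 [MOD 2 ^ 2 ^ a * 23 ^ (c + 1)]) : Psp (X * V) := by
  have h3 : 1 < X * V := by nlinarith
  refine psp_of h3 ?_ h1 ((Nat.modEq_iff_dvd' h3.le).1 h2.symm)
  exact Nat.not_prime_mul (by omega) (by omega)

theorem cov_fam (a c M : ℕ) (ha : 5 ≤ a) (hlev : a + 13 ≤ 2 ^ a) (hc : 1 ≤ c)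
    (hQ : 2 ^ (a + 1) ≤ 23 ^ c) (hk : 4 * (1 + 12 * (c + 1) + 2 ^ a) ≤ 2 ^ 2 ^ a)
    (hM : 2 ^ (a + 13) * 23 ^ c + 23 ^ c + 22 * 2 ^ a ≤ M) (hMu : M < 2 ^ 2 ^ a) :
    Cov (2 ^ (M - 1)) (2 ^ M) := by
  have hexp : 2 ^ (a + 1) = 2 * 2 ^ a := by ring
  have hA5 : 32 ≤ 2 ^ a := by
    calc 32 = 2 ^ 5 := by norm_num
      _ ≤ 2 ^ a := Nat.pow_le_pow_right (by norm_num) ha
  set A := 2 ^ a with hA
  have hy : (2 : ℝ) ^ 32 ≤ 2 ^ A := pow_le_pow_right₀ (by norm_num) hA5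
  -- the plus side
  obtain ⟨V, v1, v2, v3⟩ := fam a c (M - A) (E a 0) (by omega) hlev hQ
    (by
      rw [H, ← prod_E]
      exact Finset.dvd_prod_of_mem _ (Finset.mem_range.2 (by omega)))
    (E_zero_modEq_two le_rfl)
    (by
      intro hd
      have h2 := (tau_spec a).add_right 1
      have h3 : E a 0 % 23 = (tau a + 1) % 23 := h2
      rw [Nat.mod_eq_zero_of_dvd hd] at h3
      exact tau_succ_ne a h3.symm)
    (by omega) (lt_of_le_of_lt (Nat.sub_le _ _) hMu)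
  rw [hexp] at v3
  obtain ⟨v4, v5⟩ := near_bounds hk v3
  -- the minus side
  obtain ⟨U, u1, u2, u3⟩ := fam a c (M - 22 * A) (E a 1) (by omega) hlev hQ
    (by
      rw [H, ← prod_E]
      exact Finset.dvd_prod_of_mem _ (Finset.mem_range.2 (by omega)))
    (E_succ_modEq_two (by simp))
    (by
      intro hd
      have h2 := (E_lin a 0).of_dvd (show 23 ∣ 23 ^ (0 + 2) by norm_num)
      have h3 : 1 + 23 ^ (0 + 1) * (2 ^ a * w a) ≡ 1 [MOD 23] := by
        have : 23 ^ (0 + 1) * (2 ^ a * w a) ≡ 0 [MOD 23] :=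
          (Nat.modEq_zero_iff_dvd).2 ⟨2 ^ a * w a, by ring⟩
        simpa using (Nat.ModEq.refl 1).add this
      have h4 := h2.trans h3
      have h5 : E a (0 + 1) % 23 = 1 % 23 := h4
      rw [Nat.mod_eq_zero_of_dvd hd] at h5
      exact absurd h5 (by decide))
    (by omega) (lt_of_le_of_lt (Nat.sub_le _ _) hMu)
  rw [hexp] at u3
  obtain ⟨u4, u5⟩ := near_bounds hk u3
  have hX0 : ((E a 0 : ℕ) : ℝ) = 2 ^ A + 1 := by rw [E]; push_cast; rfl
  have hX1 : ((E a 1 : ℕ) : ℝ) * (2 ^ A + 1) = (2 ^ A) ^ 23 + 1 := by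
    have := E_mul a 0
    rw [pow_zero, mul_one, zero_add, pow_one] at this
    have h3 : ((E a 1 * (2 ^ A + 1) : ℕ) : ℝ) = ((2 ^ (A * 23) + 1 : ℕ) : ℝ) := by
      rw [this]
    push_cast at h3
    rw [h3, pow_mul]
  have hMp : (2 : ℝ) ^ M = 2 ^ A * 2 ^ (M - A) := by
    rw [← pow_add]; congr 1; omega
  have hMm : (2 : ℝ) ^ M = (2 ^ A) ^ 22 * 2 ^ (M - 22 * A) := by
    rw [← pow_mul, ← pow_add]; congr 1; omega
  have hp1 : (0 : ℝ) < 2 ^ (M - A) := by positivity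
  have hp2 : (0 : ℝ) < 2 ^ (M - 22 * A) := by positivity
  have hpM1 : (1 : ℝ) < 2 ^ (M - A) * (1 - 1 / (4 * 2 ^ A)) := by
    have h3 : (4 : ℝ) ≤ 2 ^ (M - A) := by
      calc (4 : ℝ) = 2 ^ 2 := by norm_num
        _ ≤ 2 ^ (M - A) := pow_le_pow_right₀ (by norm_num) (by omega)
    have h4 : (1 : ℝ) / (4 * 2 ^ A) ≤ 1 / 4 := by
      apply one_div_le_one_div_of_le (by norm_num)
      have : (1 : ℝ) ≤ 2 ^ A := one_le_pow₀ (by norm_num)
      linarith
    nlinarith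
  have hpM2 : (1 : ℝ) < 2 ^ (M - 22 * A) * (1 - 1 / (4 * 2 ^ A)) := by
    have h3 : (4 : ℝ) ≤ 2 ^ (M - 22 * A) := by
      calc (4 : ℝ) = 2 ^ 2 := by norm_num
        _ ≤ 2 ^ (M - 22 * A) := by
          apply pow_le_pow_right₀ (by norm_num)
          have : 1 ≤ 23 ^ c := Nat.one_le_pow _ _ (by norm_num)
          omega
    have h4 : (1 : ℝ) / (4 * 2 ^ A) ≤ 1 / 4 := by
      apply one_div_le_one_div_of_le (by norm_num)
      have : (1 : ℝ) ≤ 2 ^ A := one_le_pow₀ (by norm_num)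
      linarith
    nlinarith
  have hV1 : 1 < V := by
    have : (1 : ℝ) < V := lt_of_lt_of_le hpM1 v4
    exact_mod_cast this
  have hU1 : 1 < U := by
    have : (1 : ℝ) < U := lt_of_lt_of_le hpM2 u4
    exact_mod_cast this
  set y : ℝ := 2 ^ A with hyd
  have hy1 : (1 : ℝ) < y := lt_of_lt_of_le (by norm_num) hy
  have hy0 : (0 : ℝ) < y := by linarith
  have hyp : (0 : ℝ) < y + 1 := by linarith
  have hX1' : ((E a 1 : ℕ) : ℝ) = (y ^ 23 + 1) / (y + 1) := by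
    rw [eq_div_iff hyp.ne']; exact hX1
  have hE1 : 1 < E a 1 := by
    have : (1 : ℝ) < (E a 1 : ℕ) := by
      rw [hX1', lt_div_iff₀ hyp]
      have : y * 1 < y * y ^ 22 :=
        mul_lt_mul_of_pos_left (one_lt_pow₀ hy1 (by norm_num)) hy0
      nlinarith
    exact_mod_cast this
  have hE0 : 1 < E a 0 := by
    rw [E]
    have : 0 < 2 ^ 2 ^ a := by positivity
    omega
  have hplus := psp_fam hE0 hV1 v1 v2
  have hminus := psp_fam hE1 hU1 u1 u2
  -- real inequalities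
  have r1 : (2 : ℝ) ^ M < ((E a 0 * V : ℕ) : ℝ) := by
    rw [Nat.cast_mul, hX0, hMp]
    have h3 : (y + 1) * (2 ^ (M - A) * (1 - 1 / (4 * y))) ≤ (y + 1) * V :=
      mul_le_mul_of_nonneg_left v4 hyp.le
    refine lt_of_lt_of_le ?_ h3
    have h4 : (y + 1) * (2 ^ (M - A) * (1 - 1 / (4 * y))) =
        (y + (3 / 4 - 1 / (4 * y))) * 2 ^ (M - A) := by
      field_simp; ring
    rw [h4]
    apply mul_lt_mul_of_pos_right _ hp1
    have : 1 / (4 * y) < 1 / 4 := by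
      apply one_div_lt_one_div_of_lt (by norm_num); linarith
    linarith
  have r2 : ((E a 0 * V : ℕ) : ℝ) < 5 / 4 * (2 : ℝ) ^ M := by
    rw [Nat.cast_mul, hX0, hMp]
    have h3 : (y + 1) * V ≤ (y + 1) * (2 ^ (M - A) * (1 + 1 / (2 * y))) :=
      mul_le_mul_of_nonneg_left v5 hyp.le
    refine lt_of_le_of_lt h3 ?_
    have h4 : (y + 1) * (2 ^ (M - A) * (1 + 1 / (2 * y))) =
        (y + (3 / 2 + 1 / (2 * y))) * 2 ^ (M - A) := by
      field_simp; ring
    rw [h4, ← mul_assoc]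
    apply mul_lt_mul_of_pos_right _ hp1
    have : 1 / (2 * y) < 1 / 2 := by
      apply one_div_lt_one_div_of_lt (by norm_num); linarith
    have : (2 : ℝ) ^ 32 = 4294967296 := by norm_num
    linarith
  have r3 : ((E a 1 * U : ℕ) : ℝ) < (2 : ℝ) ^ M := by
    rw [Nat.cast_mul, hX1', hMm]
    have hpos : 0 ≤ (y ^ 23 + 1) / (y + 1) := by positivity
    have h3 : (y ^ 23 + 1) / (y + 1) * U ≤
        (y ^ 23 + 1) / (y + 1) * (2 ^ (M - 22 * A) * (1 + 1 / (2 * y))) :=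
      mul_le_mul_of_nonneg_left u5 hpos
    refine lt_of_le_of_lt h3 ?_
    have h4 : (y ^ 23 + 1) / (y + 1) * (2 ^ (M - 22 * A) * (1 + 1 / (2 * y))) =
        ((y ^ 23 + 1) * (1 + 1 / (2 * y)) / (y + 1)) * 2 ^ (M - 22 * A) := by
      ring
    rw [h4]
    apply mul_lt_mul_of_pos_right _ hp2
    rw [div_lt_iff₀ hyp]
    have h5 : (y ^ 23 + 1) * (1 + 1 / (2 * y)) = y ^ 23 + y ^ 22 / 2 + 1 + 1 / (2 * y) := by
      field_simp; ring
    rw [h5]
    have : 1 / (2 * y) < 1 / 2 := by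
      apply one_div_lt_one_div_of_lt (by norm_num); linarith
    have h6 : y ≤ y ^ 22 := by
      calc y = y ^ 1 := (pow_one y).symm
        _ ≤ y ^ 22 := pow_le_pow_right₀ hy1.le (by norm_num)
    have : (2 : ℝ) ^ 32 = 4294967296 := by norm_num
    have h7 : y ^ 22 * (y + 1) = y ^ 23 + y ^ 22 := by ring
    rw [h7]
    linarith
  have r4 : 3 / 4 * (2 : ℝ) ^ M < ((E a 1 * U : ℕ) : ℝ) := by
    rw [Nat.cast_mul, hX1', hMm]
    have hpos : 0 ≤ (y ^ 23 + 1) / (y + 1) := by positivity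
    have h3 : (y ^ 23 + 1) / (y + 1) * (2 ^ (M - 22 * A) * (1 - 1 / (4 * y))) ≤
        (y ^ 23 + 1) / (y + 1) * U :=
      mul_le_mul_of_nonneg_left u4 hpos
    refine lt_of_lt_of_le ?_ h3
    have h4 : (y ^ 23 + 1) / (y + 1) * (2 ^ (M - 22 * A) * (1 - 1 / (4 * y))) =
        ((y ^ 23 + 1) * (1 - 1 / (4 * y)) / (y + 1)) * 2 ^ (M - 22 * A) := by
      ring
    rw [h4, ← mul_assoc]
    apply mul_lt_mul_of_pos_right _ hp2
    rw [lt_div_iff₀ hyp]
    have h5 : (y ^ 23 + 1) * (1 - 1 / (4 * y)) = y ^ 23 - y ^ 22 / 4 + 1 - 1 / (4 * y) := by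
      field_simp; ring
    rw [h5]
    have h8 : 1 / (4 * y) < 1 / 4 := by
      apply one_div_lt_one_div_of_lt (by norm_num); linarith
    have h6 : 4 * y ^ 22 ≤ y ^ 23 := by
      have : y ^ 23 = y * y ^ 22 := by ring
      rw [this]
      have : (2 : ℝ) ^ 32 = 4294967296 := by norm_num
      exact mul_le_mul_of_nonneg_right (by linarith) (by positivity)
    have h7 : 3 / 4 * y ^ 22 * (y + 1) = 3 / 4 * y ^ 23 + 3 / 4 * y ^ 22 := by ring
    rw [h7]
    linarith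
  -- conclusion
  intro x hx hxM
  have hM1 : 2 ^ M = 2 * 2 ^ (M - 1) := by
    rw [← pow_succ']; congr 1; omega
  have n1 : 2 ^ M < E a 0 * V := by exact_mod_cast r1
  have n2 : 4 * (E a 0 * V) < 5 * 2 ^ M := by
    have : (4 : ℝ) * ((E a 0 * V : ℕ) : ℝ) < 5 * 2 ^ M := by linarith
    exact_mod_cast this
  have n3 : E a 1 * U < 2 ^ M := by exact_mod_cast r3
  have n4 : 3 * 2 ^ M < 4 * (E a 1 * U) := by
    have : 3 * (2 : ℝ) ^ M < 4 * ((E a 1 * U : ℕ) : ℝ) := by linarith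
    exact_mod_cast this
  by_cases hcase : x < E a 1 * U
  · exact ⟨_, hminus, hcase, by omega⟩
  · exact ⟨_, hplus, by omega, by omega⟩

end Pool.Agent.H490R2
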